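import Pool.Agent.R597.Fr9

/-!
# A notion of class forcing whose truth lemma fails over every model

The notion of forcing is Friedman's forcing. For every countable transitive model `M` of ZF there
are names `σ`, `τ` in `M` and a generic filter `G` with `ev G σ = ev G τ` such that below every
condition there is a generic filter `G'` with `ev G' σ ≠ ev G' τ`.
-/

set_option autoImplicit false

namespace Pool.Agent.Results.MP_1a1aec_lc.TruthLemmaFailsEverywhere

open Pool.Agent.W868 Pool.Agent.W868.GM Pool.Agent.R597
open ZFSet (pair)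

/-- There are formulas `φ`, `ψ` without parameters such that for all transitive models `M` of ZF
(`M` is a set), the class `P` defined by `φ` over `M` with the relation `Le` defined by `ψ` over `M`
is a class partial order over `M` with a greatest element, and if `M` is countable, then every
condition is an element of a generic filter, and the truth lemma for `v 0 = v 1` fails over `M`. -/
theorem result : ∃ (φ : Fml Empty 1) (ψ : Fml Empty 2), ∀ M : ZFSet.{0},
    IsZF {x | x ∈ M} → ∃ P Le : ZFSet.{0},
      (∀ p, p ∈ P ↔ p ∈ M ∧ Sat {x | x ∈ M} Empty.elim φ ![p]) ∧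
      (∀ u, u ∈ Le ↔ ∃ q ∈ M, ∃ p ∈ M, u = pair q p ∧
        Sat {x | x ∈ M} Empty.elim ψ ![q, p]) ∧
      IsClassForcing (DefC M) P Le ∧ (∃ t ∈ P, ∀ p ∈ P, pair p t ∈ Le) ∧
      ({x | x ∈ M}.Countable → (∀ p ∈ P, ∃ G, IsGen (DefC M) P Le G ∧ p ∈ G) ∧
        ¬ TruthLemma M P Le (.eq (.inl 0) (.inl 1) : Fml Empty 2)) :=
  uniform

end Pool.Agent.Results.MP_1a1aec_lc.TruthLemmaFailsEverywhere
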